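import Pool.Agent.Q17.OS.Stm
import Pool.Agent.Q92.WR.TOPX
import Pool.Agent.Q177.WR.PRD

/-! Job WPX of project OS (helper17): the alternating sums `WZ` for direct products. -/

set_option autoImplicit false

open scoped Classical

noncomputable section

namespace Pool.Agent.Q224.OS

open Pool.Agent.H254R3.IN Pool.Agent.Y63.KR Pool.Agent.Q17.OS Pool.Agent.Q18.KRX
  Pool.Agent.Q177.WR

section

variable {α β : Type*} [PartialOrder α] [PartialOrder β]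

/-- The alternating sum for the dual order. -/
theorem E_dual (X : Finset α) : E (α := αᵒᵈ) X = E (α := α) X := by
  unfold E
  refine Finset.sum_congr ?_ fun _ _ => rfl
  refine Finset.filter_congr fun σ _ => ?_
  constructor
  · intro h a ha b hb hab
    exact (h ha hb hab).symm
  · intro h a ha b hb hab
    exact (h ha hb hab).symm

/-- Inflationary retractions. -/
theorem E_retract_up (r : α → α) (X : Finset α)
    (h1 : ∀ x ∈ X, r x ∈ X) (h2 : ∀ x ∈ X, x ≤ r x) (h3 : ∀ x ∈ X, r (r x) = r x)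
    (h4 : ∀ x ∈ X, ∀ y ∈ X, x ≤ y → r x ≤ r y) : E X = E (X.filter (fun x => r x = x)) := by
  rw [← E_dual X, ← E_dual (X.filter (fun x => r x = x))]
  exact E_retract (α := αᵒᵈ) r _ X rfl h1 h2 h3 (fun x hx y hy h => h4 y hy x hx h)

/-- Two factors. -/
theorem E_prod [OrderBot α] [OrderBot β] (X : Finset α) (Y : Finset β) (hX : ⊥ ∈ X)
    (hY : ⊥ ∈ Y) (A : Finset (α × β)) (A₁ : Finset α) (A₂ : Finset β)
    (hA : ∀ z, z ∈ A ↔ z ≠ ⊥ ∧ z.1 ∈ X ∧ z.2 ∈ Y) (hA₁ : ∀ x, x ∈ A₁ ↔ x ≠ ⊥ ∧ x ∈ X)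
    (hA₂ : ∀ x, x ∈ A₂ ↔ x ≠ ⊥ ∧ x ∈ Y) : E A = E A₁ * E A₂ := by
  have hb : (⊥ : α × β) ∈ X ×ˢ Y := Finset.mem_product.2 ⟨hX, hY⟩
  have e0 := E_sum (X ×ˢ Y) hb
  have e1 := E_sum X hX
  have e2 := E_sum Y hY
  have a1 : A₁ = X.erase ⊥ := by
    ext z
    rw [hA₁, Finset.mem_erase]
  have a2 : A₂ = Y.erase ⊥ := by
    ext z
    rw [hA₂, Finset.mem_erase]
  have key : ∀ z ∈ X ×ˢ Y, mo X z.1 * mo Y z.2 = mo (X ×ˢ Y) z := by
    intro z hz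
    refine mo_unique (X ×ˢ Y) hb (fun z => mo X z.1 * mo Y z.2) ?_ _ z hz rfl
    intro z hz
    obtain ⟨hz1, hz2⟩ := Finset.mem_product.1 hz
    refine (Finset.sum_congr (s₂ := (X.filter (fun y => y ≤ z.1)) ×ˢ
      (Y.filter (fun y => y ≤ z.2))) ?_ (fun _ _ => rfl)).trans ?_
    · ext y
      simp only [Finset.mem_filter, Finset.mem_product, Prod.le_def]
      tauto
    rw [Finset.sum_product, ← Finset.sum_mul_sum, mo_sum X hX z.1 hz1, mo_sum Y hY z.2 hz2]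
    by_cases a : z.1 = ⊥
    · by_cases b : z.2 = ⊥
      · rw [if_pos a, if_pos b, if_pos (Prod.ext a b)]
        rfl
      · rw [if_neg b, mul_zero, if_neg]
        intro h
        exact b (by rw [h]; rfl)
    · rw [if_neg a, zero_mul, if_neg]
      intro h
      exact a (by rw [h]; rfl)
  have e3 : E A = ∑ z ∈ X ×ˢ Y, mo (X ×ˢ Y) z := by
    rw [← e0]
    congr 1
    ext z
    simp only [hA, Finset.mem_erase, Finset.mem_product]
  rw [e3, a1, a2, e1, e2, ← Finset.sum_congr rfl key, Finset.sum_product, ← Finset.sum_mul_sum]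

end

section

variable {p : ℕ} {Γ : Type} [Group Γ] [Finite Γ]

/-- The `p`-subgroups between `Z` and `X` normalised by `K`. -/
def GZ (p : ℕ) (X Z K : Subgroup Γ) : Finset (Subgroup Γ) :=
  (Set.toFinite {P : Subgroup Γ | IsPGroup p P ∧ P ≤ X ∧ Z ≤ P ∧
    K ≤ Subgroup.normalizer (P : Set Γ)}).toFinset

theorem mem_GZ {X Z K P : Subgroup Γ} : P ∈ GZ p X Z K ↔ IsPGroup p P ∧ P ≤ X ∧ Z ≤ P ∧
    K ≤ Subgroup.normalizer (P : Set Γ) := by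
  unfold GZ
  rw [Set.Finite.mem_toFinset]
  rfl

omit [Finite Γ] in
theorem le_cs {K : Subgroup Γ} {σ : Set (Subgroup Γ)} :
    K ≤ chainStabilizer σ ↔ ∀ P ∈ σ, K ≤ Subgroup.normalizer (P : Set Γ) := by
  unfold chainStabilizer
  simp only [le_iInf_iff]

theorem WZ_eq (X Z K : Subgroup Γ) : WZ p X Z K = E ((GZ p X Z K).erase Z) := by
  have h0 : Fintype (Set (Subgroup Γ)) := Fintype.ofFinite _
  have h1 : Fintype {σ : Set (Subgroup Γ) // Pool.Agent.Q17.DC.Ch p X Z σ} := Fintype.ofFinite _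
  unfold WZ
  rw [finsum_eq_sum_of_fintype]
  have e1 : ∀ σ : {σ : Set (Subgroup Γ) // Pool.Agent.Q17.DC.Ch p X Z σ},
      (-1 : ℤ) ^ σ.1.ncard * (if K ≤ chainStabilizer σ.1 then 1 else 0) =
      if K ≤ chainStabilizer σ.1 then (-1 : ℤ) ^ σ.1.ncard else 0 := by
    intro σ
    split_ifs <;> simp
  simp only [e1]
  rw [← Finset.sum_filter, Pool.Agent.Q92.WR.E_def]
  refine Finset.sum_bij (fun σ _ => (Set.toFinite σ.1).toFinset) ?_ ?_ ?_ ?_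
  · intro σ hσ
    have h3 := le_cs.1 (Finset.mem_filter.mp hσ).2
    refine Pool.Agent.Q92.WR.mem_Ch.2 ⟨?_, ?_⟩
    · intro P hP
      have hP' : P ∈ σ.1 := (Set.Finite.mem_toFinset _).mp hP
      exact Finset.mem_erase.2 ⟨(σ.2.lt P hP').ne', mem_GZ.2 ⟨σ.2.isp P hP', σ.2.le P hP',
        (σ.2.lt P hP').le, h3 P hP'⟩⟩
    · rw [Set.Finite.coe_toFinset]
      exact σ.2.chain
  · intro σ _ τ _ h
    apply Subtype.ext
    have := congrArg (fun s : Finset (Subgroup Γ) => (s : Set (Subgroup Γ))) h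
    simpa using this
  · intro τ hτ
    obtain ⟨h2, h3⟩ := Pool.Agent.Q92.WR.mem_Ch.1 hτ
    have h4 : ∀ P ∈ τ, P ≠ Z ∧ IsPGroup p P ∧ P ≤ X ∧ Z ≤ P ∧
        K ≤ Subgroup.normalizer (P : Set Γ) := fun P hP => by
      obtain ⟨a, b⟩ := Finset.mem_erase.1 (h2 hP)
      exact ⟨a, mem_GZ.1 b⟩
    refine ⟨⟨(τ : Set (Subgroup Γ)), ⟨h3, fun P hP => (h4 P hP).2.1,
      fun P hP => (h4 P hP).2.2.1,
      fun P hP => lt_of_le_of_ne (h4 P hP).2.2.2.1 (h4 P hP).1.symm⟩⟩, ?_, ?_⟩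
    · exact Finset.mem_filter.mpr ⟨Finset.mem_univ _, le_cs.2 fun P hP => (h4 P hP).2.2.2.2⟩
    · ext P
      simp
  · intro σ _
    rw [Set.ncard_eq_toFinset_card _ (Set.toFinite σ.1)]

/-- The same on the type of the subgroups above `Z`. -/
def GZ' (p : ℕ) (X Z K : Subgroup Γ) : Finset (Set.Ici Z) :=
  (Set.toFinite {P : Set.Ici Z | P.1 ∈ GZ p X Z K}).toFinset

theorem mem_GZ' {X Z K : Subgroup Γ} {P : Set.Ici Z} : P ∈ GZ' p X Z K ↔ P.1 ∈ GZ p X Z K := by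
  unfold GZ'
  rw [Set.Finite.mem_toFinset]
  rfl

theorem WZ_eq' (X Z K : Subgroup Γ) : WZ p X Z K = E ((GZ' p X Z K).erase ⊥) := by
  rw [WZ_eq, ← E_image ((GZ' p X Z K).erase ⊥) (fun P : Set.Ici Z => P.1) (fun _ _ _ _ => Iff.rfl)]
  congr 1
  ext P
  simp only [Finset.mem_image, Finset.mem_erase]
  constructor
  · rintro ⟨a, b⟩
    refine ⟨⟨P, (mem_GZ.1 b).2.2.1⟩, ⟨?_, mem_GZ'.2 b⟩, rfl⟩
    intro h
    exact a (congrArg Subtype.val h)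
  · rintro ⟨Q, ⟨a, b⟩, rfl⟩
    refine ⟨fun h => a (Subtype.ext h), mem_GZ'.1 b⟩

theorem bot_mem {X Z K : Subgroup Γ} [Z.Normal] (h : Z ≤ X) (hp : IsPGroup p Z) :
    (⊥ : Set.Ici Z) ∈ GZ' p X Z K := by
  rw [mem_GZ', mem_GZ]
  refine ⟨hp, h, le_rfl, ?_⟩
  change K ≤ Subgroup.normalizer (Z : Set Γ)
  rw [Subgroup.normalizer_eq_top]
  exact le_top

end

section

variable {p : ℕ} {Γ₁ Γ₂ : Type} [Group Γ₁] [Group Γ₂]

/-- The hull of a subgroup of a product. -/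
def hull (P : Subgroup (Γ₁ × Γ₂)) : Subgroup (Γ₁ × Γ₂) :=
  (P.map (MonoidHom.fst Γ₁ Γ₂)).prod (P.map (MonoidHom.snd Γ₁ Γ₂))

theorem le_hull (P : Subgroup (Γ₁ × Γ₂)) : P ≤ hull P := by
  intro x hx
  unfold hull
  rw [Subgroup.mem_prod]
  exact ⟨⟨x, hx, rfl⟩, ⟨x, hx, rfl⟩⟩

theorem map_fst_prod (P₁ : Subgroup Γ₁) (P₂ : Subgroup Γ₂) :
    (P₁.prod P₂).map (MonoidHom.fst Γ₁ Γ₂) = P₁ := by
  ext x
  constructor
  · rintro ⟨y, hy, rfl⟩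
    exact (Subgroup.mem_prod.1 hy).1
  · intro hx
    exact ⟨(x, 1), Subgroup.mem_prod.2 ⟨hx, P₂.one_mem⟩, rfl⟩

theorem map_snd_prod (P₁ : Subgroup Γ₁) (P₂ : Subgroup Γ₂) :
    (P₁.prod P₂).map (MonoidHom.snd Γ₁ Γ₂) = P₂ := by
  ext x
  constructor
  · rintro ⟨y, hy, rfl⟩
    exact (Subgroup.mem_prod.1 hy).2
  · intro hx
    exact ⟨(1, x), Subgroup.mem_prod.2 ⟨P₁.one_mem, hx⟩, rfl⟩

theorem hull_prod (P₁ : Subgroup Γ₁) (P₂ : Subgroup Γ₂) : hull (P₁.prod P₂) = P₁.prod P₂ := by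
  unfold hull
  rw [map_fst_prod, map_snd_prod]

theorem prod_le_iff {P₁ Q₁ : Subgroup Γ₁} {P₂ Q₂ : Subgroup Γ₂} :
    P₁.prod P₂ ≤ Q₁.prod Q₂ ↔ P₁ ≤ Q₁ ∧ P₂ ≤ Q₂ := by
  constructor
  · intro h
    constructor
    · have := Subgroup.map_mono (f := MonoidHom.fst Γ₁ Γ₂) h
      rwa [map_fst_prod, map_fst_prod] at this
    · have := Subgroup.map_mono (f := MonoidHom.snd Γ₁ Γ₂) h
      rwa [map_snd_prod, map_snd_prod] at this
  · rintro ⟨a, b⟩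
    exact Subgroup.prod_mono a b

theorem isPGroup_prod {P₁ : Subgroup Γ₁} {P₂ : Subgroup Γ₂} (h1 : IsPGroup p P₁)
    (h2 : IsPGroup p P₂) : IsPGroup p (P₁.prod P₂) := by
  intro x
  obtain ⟨hx1, hx2⟩ := Subgroup.mem_prod.1 x.2
  obtain ⟨a, ha⟩ := h1 ⟨x.1.1, hx1⟩
  obtain ⟨b, hb⟩ := h2 ⟨x.1.2, hx2⟩
  have ha' : x.1.1 ^ p ^ a = 1 := congrArg Subtype.val ha
  have hb' : x.1.2 ^ p ^ b = 1 := congrArg Subtype.val hb
  refine ⟨a + b, ?_⟩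
  apply Subtype.ext
  change x.1 ^ p ^ (a + b) = 1
  apply Prod.ext
  · change x.1.1 ^ p ^ (a + b) = 1
    rw [pow_add, pow_mul, ha', one_pow]
  · change x.1.2 ^ p ^ (a + b) = 1
    rw [pow_add, mul_comm, pow_mul, hb', one_pow]

/-- The normaliser of a product. -/
theorem le_norm_prod_iff (K : Subgroup (Γ₁ × Γ₂)) (P₁ : Subgroup Γ₁) (P₂ : Subgroup Γ₂) :
    K ≤ Subgroup.normalizer ((P₁.prod P₂ : Subgroup (Γ₁ × Γ₂)) : Set (Γ₁ × Γ₂)) ↔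
      K.map (MonoidHom.fst Γ₁ Γ₂) ≤ Subgroup.normalizer (P₁ : Set Γ₁) ∧
      K.map (MonoidHom.snd Γ₁ Γ₂) ≤ Subgroup.normalizer (P₂ : Set Γ₂) := by
  constructor
  · intro h
    constructor
    · rintro _ ⟨k, hk, rfl⟩
      have h2 := Subgroup.mem_normalizer_iff.1 (h hk)
      rw [Subgroup.mem_normalizer_iff]
      intro x
      have h3 := h2 (x, 1)
      change (x, 1) ∈ P₁.prod P₂ ↔ _ ∈ P₁.prod P₂ at h3
      rw [Subgroup.mem_prod, Subgroup.mem_prod] at h3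
      change (x ∈ P₁ ∧ (1 : Γ₂) ∈ P₂) ↔ (k.1 * x * k.1⁻¹ ∈ P₁ ∧ k.2 * 1 * k.2⁻¹ ∈ P₂) at h3
      rw [mul_one, mul_inv_cancel] at h3
      constructor
      · intro hx
        exact (h3.1 ⟨hx, P₂.one_mem⟩).1
      · intro hx
        exact (h3.2 ⟨hx, P₂.one_mem⟩).1
    · rintro _ ⟨k, hk, rfl⟩
      have h2 := Subgroup.mem_normalizer_iff.1 (h hk)
      rw [Subgroup.mem_normalizer_iff]
      intro x
      have h3 := h2 (1, x)
      change (1, x) ∈ P₁.prod P₂ ↔ _ ∈ P₁.prod P₂ at h3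
      rw [Subgroup.mem_prod, Subgroup.mem_prod] at h3
      change ((1 : Γ₁) ∈ P₁ ∧ x ∈ P₂) ↔ (k.1 * 1 * k.1⁻¹ ∈ P₁ ∧ k.2 * x * k.2⁻¹ ∈ P₂) at h3
      rw [mul_one, mul_inv_cancel] at h3
      constructor
      · intro hx
        exact (h3.1 ⟨P₁.one_mem, hx⟩).2
      · intro hx
        exact (h3.2 ⟨P₁.one_mem, hx⟩).2
  · rintro ⟨h1, h2⟩ k hk
    have a := Subgroup.mem_normalizer_iff.1 (h1 ⟨k, hk, rfl⟩)
    have b := Subgroup.mem_normalizer_iff.1 (h2 ⟨k, hk, rfl⟩)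
    rw [Subgroup.mem_normalizer_iff]
    intro x
    change x ∈ P₁.prod P₂ ↔ k * x * k⁻¹ ∈ P₁.prod P₂
    rw [Subgroup.mem_prod, Subgroup.mem_prod]
    exact and_congr (a x.1) (b x.2)

theorem norm_map {G H : Type} [Group G] [Group H] (f : G →* H) (K P : Subgroup G)
    (h : K ≤ Subgroup.normalizer (P : Set G)) :
    K.map f ≤ Subgroup.normalizer ((P.map f : Subgroup H) : Set H) := by
  rintro _ ⟨k, hk, rfl⟩
  rw [Subgroup.mem_normalizer_iff]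
  intro x
  have h2 := Subgroup.mem_normalizer_iff.1 (h hk)
  have h3 := Subgroup.mem_normalizer_iff.1 ((Subgroup.normalizer (P : Set G)).inv_mem (h hk))
  constructor
  · rintro ⟨y, hy, rfl⟩
    exact ⟨k * y * k⁻¹, (h2 y).1 hy, by simp⟩
  · rintro ⟨y, hy, hxy⟩
    refine ⟨k⁻¹ * y * k⁻¹⁻¹, (h3 y).1 hy, ?_⟩
    rw [map_mul, map_mul, hxy]
    simp only [inv_inv, map_inv]
    group

end

/-- The alternating sums for direct products. -/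
theorem t_WPX : S_WPX := by
  intro p _ Γ₁ Γ₂ _ _ _ _ X₁ Z₁ X₂ Z₂ _ _ h1 h2 hp1 hp2 K
  rw [WZ_eq, WZ_eq' X₁, WZ_eq' X₂]
  rw [← E_prod (GZ' p X₁ Z₁ (K.map (MonoidHom.fst Γ₁ Γ₂)))
    (GZ' p X₂ Z₂ (K.map (MonoidHom.snd Γ₁ Γ₂))) (bot_mem h1 hp1) (bot_mem h2 hp2)
    (((GZ' p X₁ Z₁ (K.map (MonoidHom.fst Γ₁ Γ₂))) ×ˢ
      (GZ' p X₂ Z₂ (K.map (MonoidHom.snd Γ₁ Γ₂)))).erase ⊥) _ _
    (fun z => by rw [Finset.mem_erase, Finset.mem_product]) (fun x => Finset.mem_erase)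
    (fun x => Finset.mem_erase)]
  rw [E_retract_up hull]
  · rw [← E_image (((GZ' p X₁ Z₁ (K.map (MonoidHom.fst Γ₁ Γ₂))) ×ˢ
      (GZ' p X₂ Z₂ (K.map (MonoidHom.snd Γ₁ Γ₂)))).erase ⊥)
      (fun P : Set.Ici Z₁ × Set.Ici Z₂ => P.1.1.prod P.2.1) ?_]
    · congr 1
      ext P
      simp only [Finset.mem_filter, Finset.mem_image, Finset.mem_erase, Finset.mem_product]
      constructor
      · rintro ⟨⟨a, b⟩, c⟩
        obtain ⟨b1, b2, b3, b4⟩ := mem_GZ.1 b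
        rw [← c] at b2 b3 b4
        obtain ⟨b5, b6⟩ := prod_le_iff.1 b2
        obtain ⟨b7, b8⟩ := prod_le_iff.1 b3
        obtain ⟨b9, b10⟩ := (le_norm_prod_iff K _ _).1 b4
        refine ⟨(⟨P.map (MonoidHom.fst Γ₁ Γ₂), b7⟩, ⟨P.map (MonoidHom.snd Γ₁ Γ₂), b8⟩),
          ⟨?_, ?_, ?_⟩, c⟩
        · intro h
          apply a
          have e1 : P.map (MonoidHom.fst Γ₁ Γ₂) = Z₁ :=
            congrArg (fun Q : Set.Ici Z₁ × Set.Ici Z₂ => Q.1.1) h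
          have e2 : P.map (MonoidHom.snd Γ₁ Γ₂) = Z₂ :=
            congrArg (fun Q : Set.Ici Z₁ × Set.Ici Z₂ => Q.2.1) h
          rw [← c]
          unfold hull
          rw [e1, e2]
        · exact mem_GZ'.2 (mem_GZ.2 ⟨b1.map _, b5, b7, b9⟩)
        · exact mem_GZ'.2 (mem_GZ.2 ⟨b1.map _, b6, b8, b10⟩)
      · rintro ⟨⟨⟨P₁, hP₁⟩, ⟨P₂, hP₂⟩⟩, ⟨a, b, c⟩, rfl⟩
        obtain ⟨b1, b2, b3, b4⟩ := mem_GZ.1 (mem_GZ'.1 b)
        obtain ⟨c1, c2, c3, c4⟩ := mem_GZ.1 (mem_GZ'.1 c)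
        refine ⟨⟨?_, mem_GZ.2 ⟨isPGroup_prod b1 c1, Subgroup.prod_mono b2 c2,
          Subgroup.prod_mono b3 c3, (le_norm_prod_iff K _ _).2 ⟨b4, c4⟩⟩⟩, hull_prod _ _⟩
        intro h
        apply a
        have e1 := congrArg (Subgroup.map (MonoidHom.fst Γ₁ Γ₂)) h
        have e2 := congrArg (Subgroup.map (MonoidHom.snd Γ₁ Γ₂)) h
        rw [map_fst_prod, map_fst_prod] at e1
        rw [map_snd_prod, map_snd_prod] at e2
        exact Prod.ext (Subtype.ext e1) (Subtype.ext e2)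
    · rintro ⟨⟨P₁, hP₁⟩, ⟨P₂, hP₂⟩⟩ _ ⟨⟨Q₁, hQ₁⟩, ⟨Q₂, hQ₂⟩⟩ _
      exact prod_le_iff
  · intro P hP
    obtain ⟨a, b⟩ := Finset.mem_erase.1 hP
    obtain ⟨b1, b2, b3, b4⟩ := mem_GZ.1 b
    refine Finset.mem_erase.2 ⟨?_, mem_GZ.2 ⟨isPGroup_prod (b1.map _) (b1.map _), ?_,
      b3.trans (le_hull P), ?_⟩⟩
    · intro h
      apply a
      apply le_antisymm _ b3
      rw [← h]
      exact le_hull P
    · have e1 := Subgroup.map_mono (f := MonoidHom.fst Γ₁ Γ₂) b2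
      have e2 := Subgroup.map_mono (f := MonoidHom.snd Γ₁ Γ₂) b2
      rw [map_fst_prod] at e1
      rw [map_snd_prod] at e2
      exact Subgroup.prod_mono e1 e2
    · exact (le_norm_prod_iff K _ _).2 ⟨norm_map _ K P b4, norm_map _ K P b4⟩
  · intro P _
    exact le_hull P
  · intro P _
    exact hull_prod _ _
  · intro P _ Q _ h
    exact Subgroup.prod_mono (Subgroup.map_mono h) (Subgroup.map_mono h)

end Pool.Agent.Q224.OS
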