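import Pool.Agent.Q17.OS.Stm

/-! Job ALX of project OS (helper17): the orbit formula. -/

set_option autoImplicit false

open scoped Classical

noncomputable section

namespace Pool.Agent.Q224.OS

open Pool.Agent.H254R3.IN Pool.Agent.Y63.KR Pool.Agent.Q17.DC Pool.Agent.Q17.OS

theorem conjSub_le_self {Γ : Type} [Group Γ] {X P : Subgroup Γ} {g : Γ} (hg : g ∈ X) (h : P ≤ X) :
    conjSub g P ≤ X := by
  intro y hy
  rw [mem_conjSub] at hy
  have h1 := X.mul_mem (X.mul_mem hg (h hy)) (X.inv_mem hg)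
  have e : g * (g⁻¹ * y * g) * g⁻¹ = y := by group
  rwa [e] at h1

theorem conjSub_norm {Γ : Type} [Group Γ] (Z : Subgroup Γ) [Z.Normal] (g : Γ) :
    conjSub g Z = Z := by
  rw [conjSub_eq_iff, Subgroup.normalizer_eq_top]
  exact Subgroup.mem_top g

theorem ch_conj {p : ℕ} {Γ : Type} [Group Γ] {X Z : Subgroup Γ} [Z.Normal]
    {σ : Set (Subgroup Γ)} (h : Ch p X Z σ) {g : Γ} (hg : g ∈ X) : Ch p X Z (conjSub g '' σ) := by
  refine ⟨?_, ?_, ?_, ?_⟩
  · rintro _ ⟨P, hP, rfl⟩ _ ⟨Q, hQ, rfl⟩ _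
    rcases h.chain.total hP hQ with h1 | h1
    · exact Or.inl (conjSub_le h1)
    · exact Or.inr (conjSub_le h1)
  · rintro _ ⟨P, hP, rfl⟩
    exact (h.isp P hP).map _
  · rintro _ ⟨P, hP, rfl⟩
    exact conjSub_le_self hg (h.le P hP)
  · rintro _ ⟨P, hP, rfl⟩
    have h1 := h.lt P hP
    refine lt_of_le_of_ne ?_ ?_
    · have h2 := conjSub_le (g := g) h1.le
      rwa [conjSub_norm Z g] at h2
    · intro h2
      apply h1.ne
      apply conjSub_injective g
      rw [conjSub_norm Z g]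
      exact h2

/-- The orbit formula. -/
theorem t_ALX : S_ALX := by
  intro p _ Γ _ _ X Z _ w hw
  let _ : Fintype {σ : Set (Subgroup Γ) // Ch p X Z σ} := Fintype.ofFinite _
  let _ : MulAction X {σ : Set (Subgroup Γ) // Ch p X Z σ} :=
    { smul := fun g σ => ⟨conjSub (g : Γ) '' σ.1, ch_conj σ.2 g.2⟩
      one_smul := fun σ => by
        apply Subtype.ext
        change conjSub (1 : Γ) '' σ.1 = σ.1
        have : (conjSub (1 : Γ)) = id := funext conjSub_one
        rw [this, Set.image_id]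
      mul_smul := fun g h σ => by
        apply Subtype.ext
        change conjSub ((g : Γ) * (h : Γ)) '' σ.1 = conjSub (g : Γ) '' (conjSub (h : Γ) '' σ.1)
        rw [← Set.image_comp]
        congr 1
        exact funext fun P => conjSub_mul (g : Γ) (h : Γ) P }
  have hsm : ∀ (g : X) (σ : {σ : Set (Subgroup Γ) // Ch p X Z σ}),
      (g • σ).1 = conjSub (g : Γ) '' σ.1 := fun _ _ => rfl
  have h := orbit_sum (G := X) (chX p X Z) (by
    intro σ τ
    change (∃ g ∈ X, τ.1 = conjSub g '' σ.1) ↔ _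
    constructor
    · rintro ⟨g, hgX, hg⟩
      exact ⟨⟨g, hgX⟩, Subtype.ext (by rw [hsm, hg])⟩
    · rintro ⟨g, hg⟩
      exact ⟨g, g.2, by rw [← hg, hsm]⟩)
    (fun σ => (-1) ^ σ.1.ncard * w σ.1) (by
      rintro σ τ ⟨g, hgX, hg⟩
      rw [hg, ncard_conj, hw σ.1 σ.2 g hgX])
  unfold altX
  rw [h, finsum_eq_sum_of_fintype]
  refine Finset.sum_congr rfl fun σ _ => ?_
  have hst : Nat.card (MulAction.stabilizer X σ) = Nat.card (Ns X σ.1) := by
    have hiff : ∀ g : X, g ∈ MulAction.stabilizer X σ ↔ (g : Γ) ∈ chainStabilizer σ.1 := by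
      intro g
      rw [MulAction.mem_stabilizer_iff, Subtype.ext_iff, hsm, mem_chainStabilizer]
      constructor
      · intro h3 P hP
        have hgP : conjSub (g : Γ) P ∈ σ.1 := by
          rw [← h3]
          exact ⟨P, hP, rfl⟩
        have hcard : Nat.card (conjSub (g : Γ) P) = Nat.card P :=
          Nat.card_congr (Subgroup.equivMapOfInjective _ _
            (MulAut.conj (g : Γ)).injective).toEquiv.symm
        rcases σ.2.chain.total hgP hP with h4 | h4
        · exact Subgroup.eq_of_le_of_card_ge h4 hcard.ge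
        · exact (Subgroup.eq_of_le_of_card_ge h4 hcard.le).symm
      · intro h3
        ext P
        constructor
        · rintro ⟨Q, hQ, rfl⟩
          rw [h3 Q hQ]
          exact hQ
        · intro hP
          exact ⟨P, hP, h3 P hP⟩
    refine Nat.card_congr
      { toFun := fun g => ⟨(g.1 : Γ), g.1.2, (hiff g.1).1 g.2⟩
        invFun := fun g => ⟨⟨g.1, g.2.1⟩, (hiff ⟨g.1, g.2.1⟩).2 g.2.2⟩
        left_inv := fun _ => rfl
        right_inv := fun _ => rfl }
  rw [hst]
  ring

end Pool.Agent.Q224.OS
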