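import Pool.Agent.Q17.OS.Stm

/-! Job PRS of project OS (helper17): the product formula. -/

set_option autoImplicit false

open scoped Classical

noncomputable section

namespace Pool.Agent.Q224.OS

open Pool.Agent.H254R3.IN Pool.Agent.Y63.KR Pool.Agent.Q17.DC Pool.Agent.Q17.OS

/-- Expansion of the alternating sum of a function of the stabiliser. -/
theorem cs_eq {R : Type} [CommRing R] {p : ℕ} {Γ : Type} [Group Γ] [Finite Γ]
    [Fintype (Subgroup Γ)] (X Z : Subgroup Γ) (F f : Subgroup Γ → R)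
    (hf : ∀ H, F H = ∑ K, if K ≤ H then f K else 0) :
    CS p X Z F = ∑ K, f K * (WZ p X Z K : R) := by
  let _ : Fintype {σ : Set (Subgroup Γ) // Ch p X Z σ} := Fintype.ofFinite _
  unfold CS WZ
  simp only [finsum_eq_sum_of_fintype]
  push_cast
  simp only [hf, Finset.mul_sum]
  rw [Finset.sum_comm]
  refine Finset.sum_congr rfl fun K _ => Finset.sum_congr rfl fun σ _ => ?_
  split_ifs
  · ring
  · ring

/-- The product formula. -/
theorem t_PRS (hADJ : S_ADJ) (hWPX : S_WPX) : S_PRS := by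
  intro R _ p _ Γ₁ Γ₂ _ _ _ _ X₁ Z₁ X₂ Z₂ _ _ h1 h2 hp1 hp2 F F₁ F₂ hF
  let _ : Fintype (Subgroup Γ₁) := Fintype.ofFinite _
  let _ : Fintype (Subgroup Γ₂) := Fintype.ofFinite _
  let _ : Fintype (Subgroup (Γ₁ × Γ₂)) := Fintype.ofFinite _
  obtain ⟨f, hf⟩ := (hADJ R (Subgroup (Γ₁ × Γ₂))).1 F
  obtain ⟨f₁, hf₁⟩ := (hADJ R (Subgroup Γ₁)).1 F₁
  obtain ⟨f₂, hf₂⟩ := (hADJ R (Subgroup Γ₂)).1 F₂
  rw [cs_eq _ _ F f hf, cs_eq _ _ F₁ f₁ hf₁, cs_eq _ _ F₂ f₂ hf₂]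
  have hkey := (hADJ R (Subgroup (Γ₁ × Γ₂))).2 (Subgroup Γ₁ × Subgroup Γ₂)
    (fun K => (K.map (MonoidHom.fst Γ₁ Γ₂), K.map (MonoidHom.snd Γ₁ Γ₂)))
    (fun y => y.1.prod y.2)
    (by
      intro K y
      rw [Prod.le_def]
      simp only
      constructor
      · rintro ⟨a, b⟩ x hx
        rw [Subgroup.mem_prod]
        exact ⟨a ⟨x, hx, rfl⟩, b ⟨x, hx, rfl⟩⟩
      · intro h
        constructor
        · rintro _ ⟨x, hx, rfl⟩
          exact ((Subgroup.mem_prod).1 (h hx)).1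
        · rintro _ ⟨x, hx, rfl⟩
          exact ((Subgroup.mem_prod).1 (h hx)).2)
    F f (fun y => f₁ y.1 * f₂ y.2) hf
    (by
      rintro ⟨H₁, H₂⟩
      simp only
      rw [hF, hf₁, hf₂, Finset.sum_mul_sum, Fintype.sum_prod_type]
      refine Finset.sum_congr rfl fun K₁ _ => Finset.sum_congr rfl fun K₂ _ => ?_
      by_cases a : K₁ ≤ H₁
      · by_cases b : K₂ ≤ H₂
        · rw [if_pos a, if_pos b, if_pos (Prod.mk_le_mk.2 ⟨a, b⟩)]
        · rw [if_neg b, if_neg (fun h => b (Prod.mk_le_mk.1 h).2), mul_zero]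
      · rw [if_neg a, if_neg (fun h => a (Prod.mk_le_mk.1 h).1), zero_mul])
    (fun y => (WZ p X₁ Z₁ y.1 : R) * (WZ p X₂ Z₂ y.2 : R))
  have e1 : ∑ K, f K * (WZ p (X₁.prod X₂) (Z₁.prod Z₂) K : R) =
      ∑ K : Subgroup (Γ₁ × Γ₂), f K * ((WZ p X₁ Z₁ (K.map (MonoidHom.fst Γ₁ Γ₂)) : R) *
        (WZ p X₂ Z₂ (K.map (MonoidHom.snd Γ₁ Γ₂)) : R)) := by
    refine Finset.sum_congr rfl fun K _ => ?_
    rw [hWPX p Γ₁ Γ₂ X₁ Z₁ X₂ Z₂ h1 h2 hp1 hp2 K]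
    push_cast
    rfl
  rw [e1]
  refine hkey.trans ?_
  rw [Finset.sum_mul_sum, Fintype.sum_prod_type]
  refine Finset.sum_congr rfl fun K₁ _ => Finset.sum_congr rfl fun K₂ _ => ?_
  ring

end Pool.Agent.Q224.OS
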